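import Pool.Agent.H29.HMF.Stmts

/-!
# Board hmf (MP_e1ba20): row NZ2

For a nonzero `l` in `Lam g` both coordinates are nonzero: `em i (trace η) = ε i (e^(l i) + e^(-l i))`,
so `l i = 0` gives `trace η = ± 2`, and then `l j = 0` in the other place also.
-/

set_option autoImplicit false

open Matrix MeasureTheory

namespace Pool.HMF

theorem nz2_exp {x : ℝ} (hx : (Real.exp x + Real.exp (-x)) ^ 2 = 4) : x = 0 := by
  have h1 : Real.exp x * Real.exp (-x) = 1 := by rw [← Real.exp_add]; simp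
  have h2 := Real.exp_pos x
  have h3 := Real.exp_pos (-x)
  have h4 : Real.exp x + Real.exp (-x) = 2 := by nlinarith
  have h5 : (Real.exp x - 1) ^ 2 = 0 := by
    have h6 : Real.exp (-x) = 2 - Real.exp x := by linarith
    rw [h6] at h1
    nlinarith
  have h7 : Real.exp x = 1 := by
    have := pow_eq_zero_iff (two_ne_zero) |>.mp h5
    linarith
  exact (Real.exp_eq_one_iff x).mp h7

theorem nz2_tr (h : BASS) (g : Fin 2 → S2) (η : HM) (l ε : Fin 2 → ℝ) (hr : Rel g η l ε) (i : Fin 2) :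
    em i η.1.trace = ε i * (Real.exp (l i) + Real.exp (-(l i))) := by
  obtain ⟨-, -, -, -, -, -, -, -, -, -, htr, -, -⟩ := h
  rw [← htr i η.1]
  obtain ⟨-, h2⟩ := hr i
  have hg : (g i).1 * ((g i)⁻¹ : S2).1 = 1 := by
    rw [← Matrix.SpecialLinearGroup.coe_mul, mul_inv_cancel, Matrix.SpecialLinearGroup.coe_one]
  have hg' : ((g i)⁻¹ : S2).1 * (g i).1 = 1 := by
    rw [← Matrix.SpecialLinearGroup.coe_mul, inv_mul_cancel, Matrix.SpecialLinearGroup.coe_one]
  have h3 : cm i η.1 = (g i).1 * (ε i • dg (l i)) * ((g i)⁻¹ : S2).1 := by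
    rw [← h2, mul_assoc, hg, mul_one]
  rw [h3, Matrix.trace_mul_cycle, hg', one_mul, Matrix.trace_smul, smul_eq_mul]
  congr 1
  simp [dg, Matrix.trace, Fin.sum_univ_two]

theorem nz2_thm (h : BASS) : NZ2S := by
  intro g l hl hne i hi
  obtain ⟨η, ε, hr⟩ := hl
  have hT := nz2_tr h g η l ε hr
  obtain ⟨-, hadd, hneg, h1, -, hinj, -, -, -, -, -, -, -⟩ := h
  apply hne
  have hs : ∀ j, ε j ^ 2 = 1 := fun j => (hr j).1
  have hTi := hT i
  rw [hi, neg_zero, Real.exp_zero] at hTi
  have h2 : ∀ j, em j (1 + 1) = 2 := by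
    intro j
    rw [hadd, h1]
    norm_num
  have key : ∀ j, em j η.1.trace ^ 2 = 4 := by
    intro j
    have h3 : ε i = 1 ∨ ε i = -1 := by
      have h4 : (ε i - 1) * (ε i + 1) = 0 := by linarith [hs i, sq (ε i)]
      rcases mul_eq_zero.mp h4 with h5 | h5
      · exact Or.inl (by linarith)
      · exact Or.inr (by linarith)
    rcases h3 with h3 | h3
    · have h4 : η.1.trace = 1 + 1 := by
        apply hinj i
        rw [hTi, h3, h2]
        norm_num
      rw [h4, h2]
      norm_num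
    · have h4 : η.1.trace = -(1 + 1) := by
        apply hinj i
        rw [hTi, h3, hneg, h2]
        norm_num
      rw [h4, hneg, h2]
      norm_num
  funext j
  have h5 := key j
  rw [hT j, mul_pow, hs j, one_mul] at h5
  exact nz2_exp h5

end Pool.HMF
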